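import Mathlib

set_option autoImplicit false
open scoped InnerProductSpace ComplexConjugate
open ContinuousLinearMap

namespace Pool.Agent.N293.BT

variable {H : Type} [NormedAddCommGroup H] [InnerProductSpace ℂ H] [CompleteSpace H]

/-- `T` is normal: `T* T = T T*`. -/
def IsNormalOp (T : H →L[ℂ] H) : Prop := (adjoint T).comp T = T.comp (adjoint T)

/-- `T` is subnormal: there are a Hilbert space `K`, a normal operator `N` on `K` and a linear
isometry `V` of `H` into `K` with `N V = V T`; that is, `T` is (up to the identification of `H` with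
the closed subspace `V H` of `K`) the restriction of a normal operator to an invariant subspace. -/
def IsSubnormalOp (T : H →L[ℂ] H) : Prop :=
  ∃ (K : Type) (_ : NormedAddCommGroup K) (_ : InnerProductSpace ℂ K) (_ : CompleteSpace K)
    (N : K →L[ℂ] K) (V : H →ₗᵢ[ℂ] K), IsNormalOp N ∧ ∀ x, N (V x) = V (T x)

abbrev E3 (H : Type) [NormedAddCommGroup H] : Type := PiLp 2 (fun _ : Fin 3 => H)

/-- an operator into `H³` from its three components -/
noncomputable def mk3 (A B C : E3 H →L[ℂ] H) : E3 H →L[ℂ] E3 H :=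
  (PiLp.continuousLinearEquiv 2 ℂ (fun _ : Fin 3 => H)).symm.toContinuousLinearMap.comp
    (ContinuousLinearMap.pi ![A, B, C])

omit [CompleteSpace H] in
lemma mk3_0 (A B C : E3 H →L[ℂ] H) (x : E3 H) : mk3 A B C x 0 = A x := rfl
omit [CompleteSpace H] in
lemma mk3_1 (A B C : E3 H →L[ℂ] H) (x : E3 H) : mk3 A B C x 1 = B x := rfl
omit [CompleteSpace H] in
lemma mk3_2 (A B C : E3 H →L[ℂ] H) (x : E3 H) : mk3 A B C x 2 = C x := rfl

noncomputable abbrev pr (i : Fin 3) : E3 H →L[ℂ] H := PiLp.proj 2 (fun _ : Fin 3 => H) i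

omit [InnerProductSpace ℂ H] [CompleteSpace H] in
lemma ext3 {x y : E3 H} (h0 : x 0 = y 0) (h1 : x 1 = y 1) (h2 : x 2 = y 2) : x = y := by
  ext i
  fin_cases i
  · exact h0
  · exact h1
  · exact h2

omit [CompleteSpace H] in
lemma inner3 (x y : E3 H) : ⟪x, y⟫_ℂ = ⟪x 0, y 0⟫_ℂ + ⟪x 1, y 1⟫_ℂ + ⟪x 2, y 2⟫_ℂ := by
  rw [PiLp.inner_apply, Fin.sum_univ_three]

/-- the unitary dilation of an isometry, plus a zero summand -/
noncomputable def dil (A : H →L[ℂ] H) : E3 H →L[ℂ] E3 H :=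
  mk3 (A.comp (pr 0) + (1 - A.comp (adjoint A)).comp (pr 1)) ((adjoint A).comp (pr 1)) 0

noncomputable def dil' (A : H →L[ℂ] H) : E3 H →L[ℂ] E3 H :=
  mk3 ((adjoint A).comp (pr 0)) ((1 - A.comp (adjoint A)).comp (pr 0) + A.comp (pr 1)) 0

lemma adj_dil (A : H →L[ℂ] H) : dil' A = adjoint (dil A) := by
  rw [eq_adjoint_iff]
  intro x y
  rw [inner3, inner3]
  show ⟪adjoint A (x 0), y 0⟫_ℂ + ⟪(x 0 - A (adjoint A (x 0))) + A (x 1), y 1⟫_ℂ + ⟪(0 : H), y 2⟫_ℂ =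
    ⟪x 0, A (y 0) + (y 1 - A (adjoint A (y 1)))⟫_ℂ + ⟪x 1, adjoint A (y 1)⟫_ℂ + ⟪x 2, (0 : H)⟫_ℂ
  simp only [inner_add_left, inner_add_right, inner_sub_left, inner_sub_right, inner_zero_left,
    inner_zero_right, adjoint_inner_left, adjoint_inner_right]
  have e1 : ⟪A (adjoint A (x 0)), y 1⟫_ℂ = ⟪x 0, A (adjoint A (y 1))⟫_ℂ := by
    rw [← adjoint_inner_right, adjoint_inner_left]
  rw [e1]
  ring

lemma dil_normal (A : H →L[ℂ] H) (hA : ∀ x, adjoint A (A x) = x) :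
    (dil' A).comp (dil A) = (dil A).comp (dil' A) := by
  ext1 x
  apply ext3
  · show adjoint A (A (x 0) + (x 1 - A (adjoint A (x 1)))) =
      A (adjoint A (x 0)) + ((x 0 - A (adjoint A (x 0)) + A (x 1)) -
        A (adjoint A (x 0 - A (adjoint A (x 0)) + A (x 1))))
    simp only [map_add, map_sub, hA]
    abel
  · show (A (x 0) + (x 1 - A (adjoint A (x 1)))) - A (adjoint A (A (x 0) + (x 1 - A (adjoint A (x 1))))) +
      A (adjoint A (x 1)) = adjoint A (x 0 - A (adjoint A (x 0)) + A (x 1))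
    simp only [map_add, map_sub, hA]
    abel
  · show (0 : H) = 0
    rfl

lemma normal_affine {K : Type} [NormedAddCommGroup K] [InnerProductSpace ℂ K] [CompleteSpace K]
    (M : K →L[ℂ] K) (hM : IsNormalOp M) (a b : ℂ) :
    IsNormalOp (a • (1 : K →L[ℂ] K) + b • M) := by
  have h1 : Commute (star M) M := hM
  have h2 : Commute (star (a • (1 : K →L[ℂ] K) + b • M)) (a • (1 : K →L[ℂ] K) + b • M) := by
    rw [star_add, star_smul, star_smul, star_one]
    refine Commute.add_left ?_ ?_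
    · exact (Commute.one_left _).smul_left _
    · refine Commute.add_right ?_ ?_
      · exact ((Commute.one_right _).smul_right _).smul_left _
      · exact (h1.smul_left _).smul_right _
  exact h2

lemma cj (p q : ℝ) : (starRingEnd ℂ) ((p : ℂ) / (q : ℂ)) = (p : ℂ) / (q : ℂ) := by
  rw [map_div₀, Complex.conj_ofReal, Complex.conj_ofReal]

/-- the abstract subnormality criterion -/
theorem subnormal_of (W : H →L[ℂ] H) (g : H) (hg : ‖g‖ = 1)
    (h1 : ∀ f, ‖W f‖ ^ 2 = ‖f‖ ^ 2 - 16 / 25 * ‖⟪g, f⟫_ℂ‖ ^ 2)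
    (h2 : ∀ f, ⟪g, W f⟫_ℂ = 0) (a b : ℂ) :
    IsSubnormalOp (a • (1 : H →L[ℂ] H) + b • W) := by
  have hgg : ⟪g, g⟫_ℂ = 1 := by
    rw [inner_self_eq_norm_sq_to_K, hg]; norm_num
  -- W* W = 1 - 16/25 g ⊗ g
  have h3 : ∀ x, adjoint W (W x) = x - ((16 / 25 : ℂ) * ⟪g, x⟫_ℂ) • g := by
    let D : H →L[ℂ] H := (adjoint W).comp W - (1 - (16 / 25 : ℂ) • (InnerProductSpace.rankOne ℂ g g))
    have hD : ∀ x, ⟪D x, x⟫_ℂ = 0 := by
      intro x
      show ⟪adjoint W (W x) - (x - (16 / 25 : ℂ) • (InnerProductSpace.rankOne ℂ g g x)), x⟫_ℂ = 0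
      rw [InnerProductSpace.rankOne_apply, inner_sub_left, inner_sub_left, inner_smul_left, inner_smul_left,
        adjoint_inner_left, inner_self_eq_norm_sq_to_K, inner_self_eq_norm_sq_to_K]
      have e1 : (starRingEnd ℂ) ⟪g, x⟫_ℂ * ⟪g, x⟫_ℂ = ((‖⟪g, x⟫_ℂ‖ : ℂ)) ^ 2 := by
        rw [mul_comm, Complex.mul_conj']
      have e2 : ((‖W x‖ : ℂ)) ^ 2 = (‖x‖ : ℂ) ^ 2 - 16 / 25 * (‖⟪g, x⟫_ℂ‖ : ℂ) ^ 2 := by
        have := h1 x
        have h' := congrArg (fun r : ℝ => (r : ℂ)) this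
        simp only [Complex.ofReal_sub, Complex.ofReal_mul, Complex.ofReal_pow, Complex.ofReal_div, Complex.ofReal_ofNat] at h'
        exact h'
      have e3 : (starRingEnd ℂ) (16 / 25 : ℂ) = 16 / 25 := cj 16 25
      rw [e1, e3]
      change ((‖W x‖ : ℂ)) ^ 2 - ((‖x‖ : ℂ) ^ 2 - _) = 0
      rw [e2]
      ring
    have hD0 : D = 0 := by
      ext1 x
      have := inner_map_self_eq_zero (V := H) D.toLinearMap
      have h5 := this.1 (fun y => hD y)
      have h6 : D.toLinearMap x = 0 := by rw [h5]; rfl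
      exact h6
    intro x
    have h6 : D x = 0 := by rw [hD0]; rfl
    have h7 : adjoint W (W x) - (x - (16 / 25 : ℂ) • (InnerProductSpace.rankOne ℂ g g x)) = 0 := h6
    rw [InnerProductSpace.rankOne_apply, smul_smul] at h7
    exact sub_eq_zero.1 h7
  -- the isometry A
  let A : H →L[ℂ] H := W + (2 / 3 : ℂ) • (InnerProductSpace.rankOne ℂ (W g) g)
  have hAx : ∀ x, A x = W x + ((2 / 3 : ℂ) * ⟪g, x⟫_ℂ) • W g := by
    intro x
    show W x + (2 / 3 : ℂ) • (InnerProductSpace.rankOne ℂ (W g) g x) = _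
    rw [InnerProductSpace.rankOne_apply, smul_smul]
  have hWW : ∀ x y, ⟪W x, W y⟫_ℂ = ⟪x, y⟫_ℂ - (16 / 25 : ℂ) * ⟪g, y⟫_ℂ * ⟪x, g⟫_ℂ := by
    intro x y
    rw [← adjoint_inner_right, h3, inner_sub_right, inner_smul_right]
  have hAA : ∀ x y, ⟪A x, A y⟫_ℂ = ⟪x, y⟫_ℂ := by
    intro x y
    rw [hAx, hAx, inner_add_left, inner_add_right, inner_add_right, inner_smul_left, inner_smul_left,
      inner_smul_right, inner_smul_right, hWW, hWW, hWW, hWW, hgg, map_mul, inner_conj_symm]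
    have e3 : (starRingEnd ℂ) (2 / 3 : ℂ) = 2 / 3 := cj 2 3
    rw [e3]
    ring
  have hA : ∀ x, adjoint A (A x) = x := by
    intro x
    apply ext_inner_left ℂ
    intro y
    rw [adjoint_inner_right, hAA]
  -- the embedding
  let Vl : H →ₗ[ℂ] E3 H :=
    { toFun := fun f => WithLp.toLp 2 ![f - ((2 / 5 : ℂ) * ⟪g, f⟫_ℂ) • g, 0, ((4 / 5 : ℂ) * ⟪g, f⟫_ℂ) • g]
      map_add' := by
        intro f f'
        apply ext3
        · show f + f' - ((2 / 5 : ℂ) * ⟪g, f + f'⟫_ℂ) • g = (f - ((2 / 5 : ℂ) * ⟪g, f⟫_ℂ) • g) + (f' - ((2 / 5 : ℂ) * ⟪g, f'⟫_ℂ) • g)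
          rw [inner_add_right]
          module
        · show (0 : H) = 0 + 0
          rw [add_zero]
        · show ((4 / 5 : ℂ) * ⟪g, f + f'⟫_ℂ) • g = ((4 / 5 : ℂ) * ⟪g, f⟫_ℂ) • g + ((4 / 5 : ℂ) * ⟪g, f'⟫_ℂ) • g
          rw [inner_add_right]
          module
      map_smul' := by
        intro r f
        apply ext3
        · show r • f - ((2 / 5 : ℂ) * ⟪g, r • f⟫_ℂ) • g = r • (f - ((2 / 5 : ℂ) * ⟪g, f⟫_ℂ) • g)
          rw [inner_smul_right]
          module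
        · show (0 : H) = r • (0 : H)
          rw [smul_zero]
        · show ((4 / 5 : ℂ) * ⟪g, r • f⟫_ℂ) • g = r • ((4 / 5 : ℂ) * ⟪g, f⟫_ℂ) • g
          rw [inner_smul_right]
          module }
  have hV : ∀ f, ‖Vl f‖ = ‖f‖ := by
    intro f
    have e0 : ⟪Vl f, Vl f⟫_ℂ = ⟪f, f⟫_ℂ := by
      rw [inner3]
      show ⟪f - ((2 / 5 : ℂ) * ⟪g, f⟫_ℂ) • g, f - ((2 / 5 : ℂ) * ⟪g, f⟫_ℂ) • g⟫_ℂ + ⟪(0 : H), 0⟫_ℂ +
        ⟪((4 / 5 : ℂ) * ⟪g, f⟫_ℂ) • g, ((4 / 5 : ℂ) * ⟪g, f⟫_ℂ) • g⟫_ℂ = ⟪f, f⟫_ℂ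
      simp only [inner_sub_left, inner_sub_right, inner_smul_left, inner_smul_right, inner_zero_left,
        hgg, map_mul, inner_conj_symm]
      have e3 : (starRingEnd ℂ) (2 / 5 : ℂ) = 2 / 5 := cj 2 5
      have e4 : (starRingEnd ℂ) (4 / 5 : ℂ) = 4 / 5 := cj 4 5
      rw [e3, e4]
      ring
    rw [inner_self_eq_norm_sq_to_K, inner_self_eq_norm_sq_to_K] at e0
    have e1 : ‖Vl f‖ ^ 2 = ‖f‖ ^ 2 := by exact_mod_cast e0
    exact (pow_left_inj₀ (norm_nonneg _) (norm_nonneg _) two_ne_zero).1 e1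
  refine ⟨E3 H, inferInstance, inferInstance, inferInstance, a • (1 : E3 H →L[ℂ] E3 H) + b • dil A,
    ⟨Vl, hV⟩, normal_affine _ ?_ a b, ?_⟩
  · show (adjoint (dil A)).comp (dil A) = (dil A).comp (adjoint (dil A))
    rw [← adj_dil]
    exact dil_normal A hA
  · intro x
    show a • Vl x + b • dil A (Vl x) = Vl (a • x + b • W x)
    rw [map_add, map_smul, map_smul]
    congr 2
    apply ext3
    · show A (x - ((2 / 5 : ℂ) * ⟪g, x⟫_ℂ) • g) + ((0 : H) - A (adjoint A 0)) =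
        W x - ((2 / 5 : ℂ) * ⟪g, W x⟫_ℂ) • g
      rw [h2, hAx, inner_sub_right, inner_smul_right, hgg, map_sub, map_smul, map_zero, map_zero]
      module
    · show adjoint A (0 : H) = 0
      rw [map_zero]
    · show (0 : H) = ((4 / 5 : ℂ) * ⟪g, W x⟫_ℂ) • g
      rw [h2, mul_zero, zero_smul]

theorem not_normal_of (W : H →L[ℂ] H) (g : H) (hg : ‖g‖ = 1)
    (h1 : ∀ f, ‖W f‖ ^ 2 = ‖f‖ ^ 2 - 16 / 25 * ‖⟪g, f⟫_ℂ‖ ^ 2)
    (h2 : ∀ f, ⟪g, W f⟫_ℂ = 0) : ¬ IsNormalOp W := by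
  intro hn
  have h3 : adjoint W g = 0 := by
    apply ext_inner_right ℂ
    intro f
    rw [adjoint_inner_left, h2, inner_zero_left]
  have h4 : adjoint W (W g) = 0 := by
    have h4 := congrArg (fun A : H →L[ℂ] H => A g) hn
    have h5 : adjoint W (W g) = W (adjoint W g) := h4
    rw [h5, h3, map_zero]
  have h6 : ⟪W g, W g⟫_ℂ = 0 := by
    rw [← adjoint_inner_right, h4, inner_zero_right]
  have h7 : W g = 0 := inner_self_eq_zero.1 h6
  have h8 := h1 g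
  have h9 : ⟪g, g⟫_ℂ = 1 := by
    rw [inner_self_eq_norm_sq_to_K, hg]; norm_num
  rw [h7, norm_zero, h9, hg, norm_one] at h8
  norm_num at h8

end Pool.Agent.N293.BT
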