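import Mathlib
import Pool.Agent.N293.BT.Abs

set_option autoImplicit false
open scoped InnerProductSpace ComplexConjugate
open ContinuousLinearMap

namespace Pool.Agent.N293.BT

variable {H : Type} [NormedAddCommGroup H] [InnerProductSpace ℂ H] [CompleteSpace H]

theorem no_split {L M : Type} [NormedAddCommGroup L] [InnerProductSpace ℂ L] [CompleteSpace L]
    [NormedAddCommGroup M] [InnerProductSpace ℂ M] [CompleteSpace M]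
    (W : H →L[ℂ] H) (g : H) (hg : ‖g‖ = 1)
    (h1 : ∀ f, ‖W f‖ ^ 2 = ‖f‖ ^ 2 - 16 / 25 * ‖⟪g, f⟫_ℂ‖ ^ 2)
    (h2 : ∀ f, ⟪g, W f⟫_ℂ = 0)
    (N : L →L[ℂ] L) (hN : IsNormalOp N) (S : M →L[ℂ] M) (Z : M →ₗᵢ[ℂ] M)
    (hZS : ∀ x, S (Z x) = Z (S x)) (hZ : ∀ (x : M) (l : ℂ), Z x = l • x → x = 0)
    (U : H ≃ₗᵢ[ℂ] WithLp 2 (L × M))
    (hU : ∀ x, U (W x) = WithLp.toLp 2 (N (U x).fst, S (U x).snd)) : False := by
  obtain ⟨g1, hg1⟩ : ∃ g1, g1 = (U g).fst := ⟨_, rfl⟩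
  obtain ⟨g2, hg2⟩ : ∃ g2, g2 = (U g).snd := ⟨_, rfl⟩
  have hinner : ∀ (a : L) (b : M), ⟪g, U.symm (WithLp.toLp 2 (a, b))⟫_ℂ = ⟪g1, a⟫_ℂ + ⟪g2, b⟫_ℂ := by
    intro a b
    rw [← LinearIsometryEquiv.inner_map_map U g, LinearIsometryEquiv.apply_symm_apply,
      WithLp.prod_inner_apply, hg1, hg2]
    rfl
  have hnorm : ∀ (a : L) (b : M), ‖U.symm (WithLp.toLp 2 (a, b))‖ ^ 2 = ‖a‖ ^ 2 + ‖b‖ ^ 2 := by
    intro a b
    rw [LinearIsometryEquiv.norm_map, WithLp.prod_norm_sq_eq_of_L2]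
    rfl
  have hW : ∀ (a : L) (b : M), W (U.symm (WithLp.toLp 2 (a, b))) =
      U.symm (WithLp.toLp 2 (N a, S b)) := by
    intro a b
    apply U.injective
    rw [hU, LinearIsometryEquiv.apply_symm_apply, LinearIsometryEquiv.apply_symm_apply]
    rfl
  have hC : ∀ a b, ‖N a‖ ^ 2 + ‖S b‖ ^ 2 =
      ‖a‖ ^ 2 + ‖b‖ ^ 2 - 16 / 25 * ‖⟪g1, a⟫_ℂ + ⟪g2, b⟫_ℂ‖ ^ 2 := by
    intro a b
    have := h1 (U.symm (WithLp.toLp 2 (a, b)))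
    rw [hW, hnorm, hnorm, hinner] at this
    exact this
  have hD : ∀ a b, ⟪g1, N a⟫_ℂ + ⟪g2, S b⟫_ℂ = 0 := by
    intro a b
    have := h2 (U.symm (WithLp.toLp 2 (a, b)))
    rw [hW, hinner] at this
    exact this
  have hg12 : ‖g1‖ ^ 2 + ‖g2‖ ^ 2 = 1 := by
    have e1 := hnorm (U g).fst (U g).snd
    have e2 : (WithLp.toLp 2 ((U g).fst, (U g).snd) : WithLp 2 (L × M)) = U g := rfl
    rw [e2, LinearIsometryEquiv.symm_apply_apply, hg, ← hg1, ← hg2] at e1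
    linarith
  have hA : ∀ a, ‖N a‖ ^ 2 = ‖a‖ ^ 2 - 16 / 25 * ‖⟪g1, a⟫_ℂ‖ ^ 2 := by
    intro a
    have := hC a 0
    rw [map_zero, norm_zero, inner_zero_right, add_zero] at this
    linarith
  have hB : ∀ b, ‖S b‖ ^ 2 = ‖b‖ ^ 2 - 16 / 25 * ‖⟪g2, b⟫_ℂ‖ ^ 2 := by
    intro b
    have := hC 0 b
    rw [map_zero, norm_zero, inner_zero_right, zero_add] at this
    linarith
  have hprod : ‖g1‖ ^ 2 * ‖g2‖ ^ 2 = 0 := by
    have e1 := hA g1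
    have e2 := hB g2
    have e3 := hC g1 g2
    rw [inner_self_eq_norm_sq_to_K] at e1 e3
    rw [inner_self_eq_norm_sq_to_K] at e2 e3
    have n1 : ‖((‖g1‖ : ℂ)) ^ 2‖ = ‖g1‖ ^ 2 := by
      rw [norm_pow, Complex.norm_real, norm_norm]
    have n2 : ‖((‖g2‖ : ℂ)) ^ 2‖ = ‖g2‖ ^ 2 := by
      rw [norm_pow, Complex.norm_real, norm_norm]
    have n3 : ‖((‖g1‖ : ℂ)) ^ 2 + ((‖g2‖ : ℂ)) ^ 2‖ = ‖g1‖ ^ 2 + ‖g2‖ ^ 2 := by
      have : ((‖g1‖ : ℂ)) ^ 2 + ((‖g2‖ : ℂ)) ^ 2 = ((‖g1‖ ^ 2 + ‖g2‖ ^ 2 : ℝ) : ℂ) := by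
        push_cast; rfl
      rw [this, Complex.norm_real, Real.norm_of_nonneg (by positivity)]
    change ‖N g1‖ ^ 2 = ‖g1‖ ^ 2 - 16 / 25 * ‖((‖g1‖ : ℂ)) ^ 2‖ ^ 2 at e1
    change ‖S g2‖ ^ 2 = ‖g2‖ ^ 2 - 16 / 25 * ‖((‖g2‖ : ℂ)) ^ 2‖ ^ 2 at e2
    change ‖N g1‖ ^ 2 + ‖S g2‖ ^ 2 = ‖g1‖ ^ 2 + ‖g2‖ ^ 2 -
      16 / 25 * ‖((‖g1‖ : ℂ)) ^ 2 + ((‖g2‖ : ℂ)) ^ 2‖ ^ 2 at e3
    rw [n1] at e1
    rw [n2] at e2
    rw [n3] at e3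
    nlinarith
  rcases mul_eq_zero.1 hprod with h0 | h0
  · -- g1 = 0
    have hg1z : ‖g1‖ = 0 := by simpa using h0
    have hg2n : ‖g2‖ = 1 := by
      rw [hg1z] at hg12
      have : ‖g2‖ ^ 2 = 1 := by linarith
      nlinarith [norm_nonneg g2]
    have hgg : ⟪g2, g2⟫_ℂ = 1 := by
      rw [inner_self_eq_norm_sq_to_K, hg2n]; norm_num
    have e1 := hB g2
    rw [hgg, hg2n, norm_one] at e1
    have e2 := hB (Z g2)
    rw [hZS, Z.norm_map, Z.norm_map, hg2n] at e2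
    have e3 : ‖⟪g2, Z g2⟫_ℂ‖ ^ 2 = 1 := by linarith
    have e4 : Z g2 = ⟪g2, Z g2⟫_ℂ • g2 := by
      have e5 : ⟪Z g2 - ⟪g2, Z g2⟫_ℂ • g2, Z g2 - ⟪g2, Z g2⟫_ℂ • g2⟫_ℂ = 0 := by
        have e6 : ⟪Z g2, Z g2⟫_ℂ = 1 := by rw [Z.inner_map_map, hgg]
        have e7 : (starRingEnd ℂ) ⟪g2, Z g2⟫_ℂ * ⟪g2, Z g2⟫_ℂ = 1 := by
          rw [mul_comm, Complex.mul_conj']
          have := congrArg (fun r : ℝ => (r : ℂ)) e3
          simpa using this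
        have e8 : ⟪Z g2, g2⟫_ℂ = (starRingEnd ℂ) ⟪g2, Z g2⟫_ℂ := (inner_conj_symm _ _).symm
        simp only [inner_sub_left, inner_sub_right, inner_smul_left, inner_smul_right]
        rw [e6, e8, hgg]
        linear_combination -e7
      exact sub_eq_zero.1 (inner_self_eq_zero.1 e5)
    have e9 := hZ g2 _ e4
    rw [e9, norm_zero] at hg2n
    norm_num at hg2n
  · -- g2 = 0
    have hg2z : ‖g2‖ = 0 := by simpa using h0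
    have hg1n : ‖g1‖ = 1 := by
      rw [hg2z] at hg12
      have : ‖g1‖ ^ 2 = 1 := by linarith
      nlinarith [norm_nonneg g1]
    refine not_normal_of N g1 hg1n hA (fun f => ?_) hN
    have := hD f 0
    rwa [map_zero, inner_zero_right, add_zero] at this

end Pool.Agent.N293.BT
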