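import Mathlib
import Pool.Agent.H612R3.BpDefs
import Pool.Agent.H612R3.Bp5
import Pool.Agent.N293.BT.Abs

set_option autoImplicit false
open scoped InnerProductSpace ComplexConjugate ENNReal Matrix
open Filter Topology MeasureTheory AddCircle
open Pool.Agent.Helper917.Hardy
open Pool.Agent.H612R3.BpDefs
open Pool.Agent.H612R3.Bp5 (tau tau_apply)

namespace Pool.Agent.N293.BT

abbrev E2 : Type := EuclideanSpace ℂ (Fin 2)

/-- The symbol `Φ = [[0, 4 z̄], [4 z², 3 (1 + z)]]`, `z = fourier 1 t`. -/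
noncomputable def Phi (t : Circ) : Matrix (Fin 2) (Fin 2) ℂ :=
  !![0, 4 * conj (fourier 1 t : ℂ); 4 * (fourier 1 t : ℂ) ^ 2, 3 * (1 + (fourier 1 t : ℂ))]

lemma conj_four (t : Circ) : conj (fourier 1 t : ℂ) = fourier (-1) t := fourier_neg.symm

lemma four_sq (t : Circ) : (fourier 1 t : ℂ) ^ 2 = fourier 2 t := by
  rw [sq, ← fourier_add]; rfl

lemma four_conj (t : Circ) : (fourier 1 t : ℂ) * conj (fourier 1 t : ℂ) = 1 := by
  rw [conj_four, ← fourier_add]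
  simp

lemma norm_four (n : ℤ) (t : Circ) : ‖(fourier n t : ℂ)‖ ≤ 1 := by
  have h := (fourier n : C(Circ, ℂ)).norm_coe_le_norm t
  rwa [fourier_norm] at h

lemma phi00 (t : Circ) : Phi t 0 0 = 0 := rfl
lemma phi01 (t : Circ) : Phi t 0 1 = 4 * fourier (-1) t := by
  show 4 * conj (fourier 1 t : ℂ) = _
  rw [conj_four]
lemma phi10 (t : Circ) : Phi t 1 0 = 4 * fourier 2 t := by
  show 4 * (fourier 1 t : ℂ) ^ 2 = _
  rw [four_sq]
lemma phi11 (t : Circ) : Phi t 1 1 = 3 * (1 + fourier 1 t) := rfl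

lemma phi_linfty : IsLinfty Phi := by
  constructor
  · intro i j
    apply Continuous.aestronglyMeasurable
    fin_cases i <;> fin_cases j
    · show Continuous (fun t => Phi t 0 0)
      simp_rw [phi00]
      exact continuous_const
    · show Continuous (fun t => Phi t 0 1)
      simp_rw [phi01]
      fun_prop
    · show Continuous (fun t => Phi t 1 0)
      simp_rw [phi10]
      fun_prop
    · show Continuous (fun t => Phi t 1 1)
      simp_rw [phi11]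
      fun_prop
  · refine ⟨6, ?_⟩
    filter_upwards with t i j
    fin_cases i <;> fin_cases j
    · show ‖Phi t 0 0‖ ≤ 6
      rw [phi00]; norm_num
    · show ‖Phi t 0 1‖ ≤ 6
      rw [phi01, norm_mul]
      have := norm_four (-1) t
      have h3 : ‖(4 : ℂ)‖ = 4 := by norm_num
      rw [h3]
      linarith
    · show ‖Phi t 1 0‖ ≤ 6
      rw [phi10, norm_mul]
      have := norm_four 2 t
      have h3 : ‖(4 : ℂ)‖ = 4 := by norm_num
      rw [h3]
      linarith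
    · show ‖Phi t 1 1‖ ≤ 6
      rw [phi11, norm_mul]
      have := norm_four 1 t
      have h2 : ‖(1 : ℂ) + fourier 1 t‖ ≤ 1 + 1 := (norm_add_le _ _).trans (by rw [norm_one]; linarith)
      have h3 : ‖(3 : ℂ)‖ = 3 := by norm_num
      rw [h3]
      linarith

/-- `B(z) = z I` -/
noncomputable def BB (w : ℂ) : Matrix (Fin 2) (Fin 2) ℂ := w • 1

lemma bb_bp : IsBlaschkePotapov BB := by
  refine ⟨1, one_mem _, [(0, 1)], ?_, ?_⟩
  · intro q hq
    rw [List.mem_singleton] at hq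
    subst hq
    refine ⟨by simp, one_ne_zero, Matrix.isHermitian_one, one_mul _⟩
  · intro w _
    simp [BB]

lemma phi_eq (t : Circ) : Phi t = BB (fourier 1 t) * (Phi t)ᴴ := by
  have h := four_conj t
  rw [BB, smul_mul_assoc, one_mul]
  ext i j
  fin_cases i <;> fin_cases j
  · show (0 : ℂ) = fourier 1 t * conj (0 : ℂ)
    simp
  · show 4 * conj (fourier 1 t : ℂ) = fourier 1 t * conj (4 * (fourier 1 t : ℂ) ^ 2)
    rw [map_mul, map_pow, Complex.conj_ofNat]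
    linear_combination (-4 * conj (fourier 1 t : ℂ)) * h
  · show 4 * (fourier 1 t : ℂ) ^ 2 = fourier 1 t * conj (4 * conj (fourier 1 t : ℂ))
    rw [map_mul, Complex.conj_conj, Complex.conj_ofNat]
    ring
  · show 3 * (1 + (fourier 1 t : ℂ)) = fourier 1 t * conj (3 * (1 + (fourier 1 t : ℂ)))
    rw [map_mul, map_add, map_one, Complex.conj_ofNat]
    linear_combination (-3) * h

lemma not_hinfty : ¬ IsHinfty Phi := by
  intro h
  have h1 := h.2 (-1) (by norm_num) 0 1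
  have h2 : (fun t => Phi t 0 1) = fun t : Circ => (4 : ℂ) * (fourier (-1) t : ℂ) := by
    funext t
    exact phi01 t
  rw [h2, fourierCoeff.const_mul] at h1
  have h3 := congrFun (fourierCoeff_fourier (T := (1 : ℝ)) (-1)) (-1)
  have h4 : fourierCoeff (fun t : Circ => (fourier (-1) t : ℂ)) (-1) = 1 := by
    rw [h3]; simp
  rw [h4] at h1
  norm_num at h1

/-- the action of `Φ - 3` divided by 5 on vectors -/
lemma act (t : Circ) (x : E2) :
    (((1 / 5 : ℂ) • ((WithLp.toLp 2 (Phi t *ᵥ x.ofLp) : E2) - (3 : ℂ) • x)) 0 =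
      (1 / 5) * (4 * fourier (-1) t * x 1 - 3 * x 0)) ∧
    (((1 / 5 : ℂ) • ((WithLp.toLp 2 (Phi t *ᵥ x.ofLp) : E2) - (3 : ℂ) • x)) 1 =
      (1 / 5) * (4 * fourier 2 t * x 0 + 3 * fourier 1 t * x 1)) := by
  constructor
  · show (1 / 5 : ℂ) * ((Phi t *ᵥ x.ofLp) 0 - 3 * x 0) = _
    simp only [Matrix.mulVec, dotProduct, Fin.sum_univ_two]
    rw [phi00, phi01]
    ring
  · show (1 / 5 : ℂ) * ((Phi t *ᵥ x.ofLp) 1 - 3 * x 1) = _
    simp only [Matrix.mulVec, dotProduct, Fin.sum_univ_two]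
    rw [phi10, phi11]
    ring

lemma inner_act (t : Circ) (x : E2) :
    ⟪((1 / 5 : ℂ) • ((WithLp.toLp 2 (Phi t *ᵥ x.ofLp) : E2) - (3 : ℂ) • x)),
      ((1 / 5 : ℂ) • ((WithLp.toLp 2 (Phi t *ᵥ x.ofLp) : E2) - (3 : ℂ) • x))⟫_ℂ = ⟪x, x⟫_ℂ := by
  obtain ⟨h0, h1⟩ := act t x
  have h := four_conj t
  rw [PiLp.inner_apply, PiLp.inner_apply, Fin.sum_univ_two, Fin.sum_univ_two, h0, h1]
  simp only [RCLike.inner_apply]
  rw [← conj_four, ← four_sq]
  simp only [map_mul, map_sub, map_add, map_pow, Complex.conj_conj, map_div₀, map_one, Complex.conj_ofNat]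
  generalize conj (fourier 1 t : ℂ) = w at *
  generalize (fourier 1 t : ℂ) = u at *
  generalize x 0 = a
  generalize x 1 = b
  have hw2 : u ^ 2 * w ^ 2 = 1 := by rw [← mul_pow, h, one_pow]
  linear_combination ((16 / 25) * b * conj b + (9 / 25) * b * conj b + (12 / 25) * a * conj b * u + (12 / 25) * b * conj a * w) * h + (16 / 25) * a * conj a * hw2

lemma coeff_comp (f : L2 E2) (i : Fin 2) (m : ℤ) :
    (fourierCoeff (f : Circ → E2) m) i = fourierCoeff (fun t => (f t) i) m :=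
  (fourierCoeff_clm_apply (EuclideanSpace.proj i : E2 →L[ℂ] ℂ) f (integrable_L2 f) m).symm

lemma int_comp (f : L2 E2) (i : Fin 2) : Integrable (fun t => (f t) i) mu :=
  (EuclideanSpace.proj i : E2 →L[ℂ] ℂ).integrable_comp (integrable_L2 f)

lemma coeff_two (φ ψ : Circ → ℂ) (hφ : Integrable φ mu) (hψ : Integrable ψ mu) (c d : ℂ)
    (k l m : ℤ) :
    fourierCoeff (fun t => c * fourier k t * φ t + d * fourier l t * ψ t) m =
      c * fourierCoeff φ (m - k) + d * fourierCoeff ψ (m - l) := by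
  unfold fourierCoeff
  rw [← integral_const_mul, ← integral_const_mul, ← integral_add
    ((hφ.fourier_smul _).const_mul c) ((hψ.fourier_smul _).const_mul d)]
  apply integral_congr_ae
  filter_upwards with t
  have e1 : ∀ k : ℤ, (fourier (-(m - k)) t : ℂ) = fourier (-m) t * fourier k t := by
    intro k
    rw [← fourier_add]
    have : -(m - k) = -m + k := by ring
    rw [this]
  simp only [smul_eq_mul]
  rw [e1, e1]
  ring

/-- the operator `W = (T - 3) / 5` -/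
noncomputable def Wop (T : HardySp 2 →L[ℂ] HardySp 2) : HardySp 2 →L[ℂ] HardySp 2 :=
  (-3 / 5 : ℂ) • (1 : HardySp 2 →L[ℂ] HardySp 2) + (1 / 5 : ℂ) • T

lemma exists_h (T : HardySp 2 →L[ℂ] HardySp 2) (hT : IsToeplitz Phi T) (f : HardySp 2) :
    ∃ h : L2 E2,
    (∀ m : ℤ, (fourierCoeff h m) 0 =
      4 / 5 * (fourierCoeff (toL2 f) (m + 1)) 1 + (-3 / 5) * (fourierCoeff (toL2 f) m) 0) ∧
    (∀ m : ℤ, (fourierCoeff h m) 1 =
      4 / 5 * (fourierCoeff (toL2 f) (m - 2)) 0 + 3 / 5 * (fourierCoeff (toL2 f) (m - 1)) 1) ∧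
    ‖h‖ = ‖f‖ ∧ toL2 (Wop T f) = riesz h := by
  obtain ⟨G, hG, hTf⟩ := hT f
  have hh : ((1 / 5 : ℂ) • (G - (3 : ℂ) • toL2 f) : L2 E2) =ᵐ[mu] fun t =>
      (1 / 5 : ℂ) • ((WithLp.toLp 2 (Phi t *ᵥ (toL2 f t).ofLp) : E2) - (3 : ℂ) • toL2 f t) := by
    filter_upwards [hG, Lp.coeFn_smul (1 / 5 : ℂ) (G - (3 : ℂ) • toL2 f),
      Lp.coeFn_sub G ((3 : ℂ) • toL2 f), Lp.coeFn_smul (3 : ℂ) (toL2 f)] with t h1 h2 h3 h4
    rw [h2, Pi.smul_apply, h3, Pi.sub_apply, h4, Pi.smul_apply, h1]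
  refine ⟨(1 / 5 : ℂ) • (G - (3 : ℂ) • toL2 f), ?_, ?_, ?_, ?_⟩
  · intro m
    rw [coeff_comp, coeff_comp, coeff_comp]
    have h5 := coeff_two _ _ (int_comp (toL2 f) 1) (int_comp (toL2 f) 0) (4 / 5) (-3 / 5) (-1) 0 m
    rw [sub_neg_eq_add, sub_zero] at h5
    rw [← h5]
    refine congrFun (fourierCoeff_congr_ae ?_) m
    filter_upwards [hh] with t ht
    rw [ht, (act t (toL2 f t)).1, fourier_zero]
    ring
  · intro m
    rw [coeff_comp, coeff_comp, coeff_comp]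
    have h5 := coeff_two _ _ (int_comp (toL2 f) 0) (int_comp (toL2 f) 1) (4 / 5) (3 / 5) 2 1 m
    rw [← h5]
    refine congrFun (fourierCoeff_congr_ae ?_) m
    filter_upwards [hh] with t ht
    rw [ht, (act t (toL2 f t)).2]
    ring
  · have e0 : ⟪((1 / 5 : ℂ) • (G - (3 : ℂ) • toL2 f) : L2 E2),
        ((1 / 5 : ℂ) • (G - (3 : ℂ) • toL2 f) : L2 E2)⟫_ℂ = ⟪toL2 f, toL2 f⟫_ℂ := by
      rw [L2.inner_def, L2.inner_def]
      apply integral_congr_ae
      filter_upwards [hh] with t ht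
      rw [ht, inner_act]
    rw [inner_self_eq_norm_sq_to_K, inner_self_eq_norm_sq_to_K] at e0
    have e1 : ‖((1 / 5 : ℂ) • (G - (3 : ℂ) • toL2 f) : L2 E2)‖ ^ 2 = ‖toL2 f‖ ^ 2 := by
      exact_mod_cast e0
    exact (pow_left_inj₀ (norm_nonneg _) (norm_nonneg _) two_ne_zero).1 e1
  · have e1 : toL2 (Wop T f) = (-3 / 5 : ℂ) • toL2 f + (1 / 5 : ℂ) • toL2 (T f) := rfl
    have e2 : riesz (toL2 f) = toL2 f := riesz_eq_self f.2
    have e3 : riesz ((1 / 5 : ℂ) • (G - (3 : ℂ) • toL2 f)) =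
        (1 / 5 : ℂ) • (riesz G - (3 : ℂ) • riesz (toL2 f)) := by
      unfold riesz
      rw [map_smul, map_sub, map_smul]
    rw [e1, e3, e2, hTf]
    module

lemma coeff_neg (f : HardySp 2) (m : ℤ) (hm : m < 0) (i : Fin 2) :
    (fourierCoeff (toL2 f) m) i = 0 := by
  have : fourierCoeff (toL2 f) m = 0 := f.2 m hm
  rw [this]
  rfl

lemma h_minus (f : HardySp 2) (h : L2 E2)
    (h0 : ∀ m : ℤ, (fourierCoeff h m) 0 =
      4 / 5 * (fourierCoeff (toL2 f) (m + 1)) 1 + (-3 / 5) * (fourierCoeff (toL2 f) m) 0)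
    (h1 : ∀ m : ℤ, (fourierCoeff h m) 1 =
      4 / 5 * (fourierCoeff (toL2 f) (m - 2)) 0 + 3 / 5 * (fourierCoeff (toL2 f) (m - 1)) 1) :
    h - riesz h = mono (-1) (EuclideanSpace.single (0 : Fin 2)
      (4 / 5 * (fourierCoeff (toL2 f) 0) 1) : E2) := by
  apply ext_fourierCoeff
  intro m
  rw [fourierCoeff_sub', fourierCoeff_riesz, fourierCoeff_mono]
  by_cases hm : m < 0
  · rw [if_pos hm, sub_zero]
    ext i
    fin_cases i
    · show (fourierCoeff h m) 0 = _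
      rw [h0, coeff_neg f m hm]
      by_cases hm1 : m = -1
      · subst hm1
        rw [if_pos rfl]
        simp
      · rw [if_neg hm1, coeff_neg f (m + 1) (by omega)]
        simp
    · show (fourierCoeff h m) 1 = _
      rw [h1, coeff_neg f (m - 2) (by omega), coeff_neg f (m - 1) (by omega)]
      split_ifs <;> simp
  · rw [if_neg hm, if_neg (by omega), sub_self]

lemma pyth (h : L2 E2) : ‖riesz h‖ ^ 2 = ‖h‖ ^ 2 - ‖h - riesz h‖ ^ 2 := by
  have h1 : ⟪riesz h, riesz h⟫_ℂ = ⟪h, riesz h⟫_ℂ := inner_riesz_left (riesz_mem h)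
  have h2 := norm_sub_sq (𝕜 := ℂ) h (riesz h)
  rw [← h1, inner_self_eq_norm_sq] at h2
  linarith

/-- the constant function `(0,1)` -/
noncomputable def gg : HardySp 2 :=
  ⟨mono 0 (EuclideanSpace.single (1 : Fin 2) (1 : ℂ) : E2), mono_mem_H2 0 le_rfl _⟩

lemma inner_gg (f : HardySp 2) : ⟪gg, f⟫_ℂ = (fourierCoeff (toL2 f) 0) 1 := by
  have h : ⟪gg, f⟫_ℂ = ⟪mono 0 (EuclideanSpace.single (1 : Fin 2) (1 : ℂ) : E2), toL2 f⟫_ℂ := rfl
  rw [h, inner_mono, EuclideanSpace.inner_single_left]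
  simp

lemma norm_gg : ‖gg‖ = 1 := by
  have h : ‖gg‖ = ‖(mono 0 (EuclideanSpace.single (1 : Fin 2) (1 : ℂ) : E2) : L2 E2)‖ := rfl
  rw [h, norm_mono]
  simp

lemma norm_W (T : HardySp 2 →L[ℂ] HardySp 2) (hT : IsToeplitz Phi T) (f : HardySp 2) :
    ‖Wop T f‖ ^ 2 = ‖f‖ ^ 2 - 16 / 25 * ‖⟪gg, f⟫_ℂ‖ ^ 2 := by
  obtain ⟨h, h0, h1, h2, h3⟩ := exists_h T hT f
  have h4 : ‖Wop T f‖ = ‖toL2 (Wop T f)‖ := rfl
  rw [h4, h3, pyth, h2, h_minus f h h0 h1, norm_mono, inner_gg, PiLp.norm_single, norm_mul]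
  have h5 : ‖(4 / 5 : ℂ)‖ = 4 / 5 := by norm_num
  rw [h5]
  ring

lemma inner_W (T : HardySp 2 →L[ℂ] HardySp 2) (hT : IsToeplitz Phi T) (f : HardySp 2) :
    ⟪gg, Wop T f⟫_ℂ = 0 := by
  obtain ⟨h, h0, h1, h2, h3⟩ := exists_h T hT f
  rw [inner_gg, h3, fourierCoeff_riesz, if_neg (lt_irrefl _), h1, coeff_neg f _ (by norm_num),
    coeff_neg f _ (by norm_num)]
  simp

lemma T_eq (T : HardySp 2 →L[ℂ] HardySp 2) :
    T = (3 : ℂ) • (1 : HardySp 2 →L[ℂ] HardySp 2) + (5 : ℂ) • Wop T := by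
  unfold Wop
  module

theorem subnormal (T : HardySp 2 →L[ℂ] HardySp 2) (hT : IsToeplitz Phi T) : IsSubnormalOp T := by
  have h := subnormal_of (Wop T) gg norm_gg (norm_W T hT) (inner_W T hT) 3 5
  rwa [← T_eq] at h

theorem not_normal (T : HardySp 2 →L[ℂ] HardySp 2) (hT : IsToeplitz Phi T) : ¬ IsNormalOp T := by
  intro hn
  have h1 : IsNormalOp (Wop T) := normal_affine T hn (-3 / 5) (1 / 5)
  exact not_normal_of (Wop T) gg norm_gg (norm_W T hT) (inner_W T hT) h1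

theorem existsUnique_T (Φ : Circ → Matrix (Fin 2) (Fin 2) ℂ) (hΦ : IsLinfty Φ) :
    ∃! T : HardySp 2 →L[ℂ] HardySp 2, IsToeplitz Φ T := by
  obtain ⟨h1, -⟩ := Pool.Agent.H612R3.Bp5.raw 2 Φ hΦ
  have key : ∀ T : HardySp 2 →L[ℂ] HardySp 2, IsToeplitz Φ T ↔
      Pool.Agent.H612R3.Bp5.IsToeplitzRaw (n := 2) Φ T := by
    intro T
    constructor
    · intro h f
      obtain ⟨g, hg, hT⟩ := h f
      exact ⟨g, hg, Subtype.ext hT⟩
    · intro h f
      obtain ⟨g, hg, hT⟩ := h f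
      exact ⟨g, hg, congrArg Subtype.val hT⟩
  obtain ⟨T, hT, hu⟩ := h1
  exact ⟨T, (key T).2 hT, fun T' hT' => hu T' ((key T').1 hT')⟩

end Pool.Agent.N293.BT
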