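import Mathlib
import Pool.Agent.H612R3.BpDefs
import Pool.Agent.H612R3.Bp5
import Pool.Agent.N293.BT.Toep
import Pool.Agent.N293.BT.Split

set_option autoImplicit false
open scoped InnerProductSpace ComplexConjugate ENNReal Matrix
open Filter Topology MeasureTheory AddCircle
open Pool.Agent.Helper917.Hardy
open Pool.Agent.H612R3.BpDefs
open Pool.Agent.H612R3.Bp5 (tau tau_apply tau_sum tau_meas tau_bdd)
open Pool.Agent.H612R3.Bp (mulOp_mulC mulC1_mem)

namespace Pool.Agent.N293.BT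

section ana

variable {k : ℕ}

abbrev Ek (k : ℕ) : Type := EuclideanSpace ℂ (Fin k)

lemma hinf_coeff {F : Circ → Matrix (Fin k) (Fin k) ℂ} (hF : IsHinfty F) (v : Ek k) (m : ℤ)
    (hm : m < 0) : fourierCoeff (fun t => tau k (F t) v) m = 0 := by
  have hint : ∀ i j, Integrable (fun t => F t i j) mu := by
    intro i j
    obtain ⟨C, hC⟩ := hF.1.2
    refine Integrable.of_bound (hF.1.1 i j) C ?_
    filter_upwards [hC] with t ht
    exact ht i j
  have h1 : ∀ t, fourier (-m) t • tau k (F t) v =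
      ∑ i, ∑ j, ((fourier (-m) t : ℂ) • F t i j) • tau k (Matrix.single i j 1) v := by
    intro t
    rw [tau_sum, sum_apply, Finset.smul_sum]
    refine Finset.sum_congr rfl (fun i _ => ?_)
    rw [sum_apply, Finset.smul_sum]
    refine Finset.sum_congr rfl (fun j _ => ?_)
    rw [smul_apply, smul_smul, smul_eq_mul]
  unfold fourierCoeff
  simp_rw [h1]
  rw [integral_finsetSum _ (fun i _ => integrable_finsetSum _
    (fun j _ => ((hint i j).fourier_smul (-m)).smul_const _))]
  refine Finset.sum_eq_zero (fun i _ => ?_)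
  rw [integral_finsetSum _ (fun j _ => ((hint i j).fourier_smul (-m)).smul_const _)]
  refine Finset.sum_eq_zero (fun j _ => ?_)
  rw [integral_smul_const]
  have h2 : ∫ t, (fourier (-m) t : ℂ) • F t i j ∂mu = 0 := hF.2 m hm i j
  rw [h2, zero_smul]

lemma hasSum_mono (f : L2 (Ek k)) :
    HasSum (fun i : ℤ => (mono i (fourierCoeff f i) : L2 (Ek k))) f := by
  have h := (isHilbertSum_mono (E := Ek k)).hasSum_linearIsometryEquiv_symm (four f)
  have e : (isHilbertSum_mono (E := Ek k)).linearIsometryEquiv.symm (four f) = f :=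
    (four (E := Ek k)).symm_apply_apply f
  rw [e] at h
  have e2 : (fun i : ℤ => (mono i (fourierCoeff f i) : L2 (Ek k))) =
      fun i : ℤ => (monoI i : Ek k →ₗᵢ[ℂ] L2 (Ek k)) (four f i) := by
    funext i
    rw [four_apply]
    rfl
  rw [e2]
  exact h

lemma mulOp_mem {F : Circ → Matrix (Fin k) (Fin k) ℂ} (hF : IsHinfty F)
    (hm : AEStronglyMeasurable (fun t => tau k (F t)) mu) (c : ℝ)
    (hc : ∀ᵐ t ∂mu, ‖tau k (F t)‖ ≤ c) (f : L2 (Ek k)) (hf : f ∈ H2 (Ek k)) :
    mulOp (fun t => tau k (F t)) hm c hc f ∈ H2 (Ek k) := by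
  intro m hm'
  rw [← coeffL_apply]
  have h1 := ((coeffL m).comp (mulOp (fun t => tau k (F t)) hm c hc)).hasSum (hasSum_mono f)
  have h2 : ∀ i : ℤ, ((coeffL m).comp (mulOp (fun t => tau k (F t)) hm c hc))
      (mono i (fourierCoeff f i) : L2 (Ek k)) = 0 := by
    intro i
    rcases lt_or_ge i 0 with hi | hi
    · rw [hf i hi, map_zero, map_zero]
    · show coeffL m (mulOp (fun t => tau k (F t)) hm c hc (mono i (fourierCoeff f i))) = 0
      have e1 : (mono i (fourierCoeff f i) : L2 (Ek k)) =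
          mulC (fourier i) (mono 0 (fourierCoeff f i)) := by
        apply ext_fourierCoeff
        intro j
        rw [fourierCoeff_mulC_fourier, fourierCoeff_mono, fourierCoeff_mono]
        by_cases hj : j = i
        · rw [if_pos hj, if_pos (by omega)]
        · rw [if_neg hj, if_neg (by omega)]
      rw [e1, mulOp_mulC, coeffL_apply, fourierCoeff_mulC_fourier]
      have e2 : (mulOp (fun t => tau k (F t)) hm c hc (mono 0 (fourierCoeff f i)) : L2 (Ek k))
          =ᵐ[mu] fun t => tau k (F t) (fourierCoeff f i) := by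
        filter_upwards [coeFn_mulOp (fun t => tau k (F t)) hm c hc (mono 0 (fourierCoeff f i)),
          coeFn_mono 0 (fourierCoeff (f : Circ → Ek k) i)] with t h1 h2
        rw [h1, h2, fourier_zero, one_smul]
      rw [fourierCoeff_congr_ae e2]
      exact hinf_coeff hF _ _ (by omega)
  simp only [h2] at h1
  exact h1.unique hasSum_zero

/-- the shift on `H²_{ℂᵏ}` -/
noncomputable def Zk (k : ℕ) : HardySp k →ₗᵢ[ℂ] HardySp k where
  toFun f := (⟨mulC (fourier 1) (toL2 f), mulC1_mem (V := Ek k) f⟩ : H2 (Ek k))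
  map_add' f g := Subtype.ext (map_add (mulC (fourier 1)) (toL2 f) (toL2 g))
  map_smul' c f := Subtype.ext (map_smul (mulC (fourier 1)) c (toL2 f))
  norm_map' f := by
    have e0 : ⟪mulC (fourier 1) (toL2 f), mulC (fourier 1) (toL2 f)⟫_ℂ = ⟪toL2 f, toL2 f⟫_ℂ := by
      rw [inner_mulC_left, mulC_mulC, star_fourier, fourier_mul]
      congr 1
      apply ext_fourierCoeff
      intro m
      rw [fourierCoeff_mulC_fourier]
      congr 1
      ring
    rw [inner_self_eq_norm_sq_to_K, inner_self_eq_norm_sq_to_K] at e0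
    have e1 : ‖mulC (fourier 1) (toL2 f)‖ ^ 2 = ‖toL2 f‖ ^ 2 := by exact_mod_cast e0
    exact (pow_left_inj₀ (norm_nonneg _) (norm_nonneg _) two_ne_zero).1 e1

lemma coe_Zk (f : HardySp k) : toL2 (Zk k f) = mulC (fourier 1) (toL2 f) := rfl

lemma coeff_Zk (f : HardySp k) (m : ℤ) :
    fourierCoeff (toL2 (Zk k f)) m = fourierCoeff (toL2 f) (m - 1) := by
  rw [coe_Zk, fourierCoeff_mulC_fourier]

lemma Zk_eig (x : HardySp k) (l : ℂ) (h : Zk k x = l • x) : x = 0 := by
  have h1 : ∀ m : ℤ, fourierCoeff (toL2 x) (m - 1) = l • fourierCoeff (toL2 x) m := by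
    intro m
    rw [← coeff_Zk, h]
    exact fourierCoeff_smul' l (toL2 x) m
  have h2 : ∀ n : ℕ, fourierCoeff (toL2 x) ((n : ℤ) - 1) = 0 := by
    intro n
    by_cases hl : l = 0
    · rw [h1, hl, zero_smul]
    · induction n with
      | zero => exact x.2 _ (by norm_num)
      | succ n ih =>
        have h3 := h1 (n : ℤ)
        rw [ih] at h3
        have h4 : fourierCoeff (toL2 x) (n : ℤ) = 0 := by
          rcases smul_eq_zero.1 h3.symm with h5 | h5
          · exact absurd h5 hl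
          · exact h5
        have h5 : (((n + 1 : ℕ) : ℤ) - 1) = n := by push_cast; ring
        rw [h5, h4]
  have h3 : toL2 x = 0 := by
    apply ext_fourierCoeff
    intro m
    have h0 : fourierCoeff ((0 : L2 (Ek k)) : Circ → Ek k) m = 0 := by
      rw [← coeffL_apply, map_zero]
    rw [h0]
    rcases lt_or_ge m 0 with hm | hm
    · exact x.2 m hm
    · have := h2 (m + 1).toNat
      have h6 : (((m + 1).toNat : ℤ) - 1) = m := by omega
      rwa [h6] at this
  exact Subtype.ext h3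

lemma S_comm {F : Circ → Matrix (Fin k) (Fin k) ℂ} (hF : IsHinfty F)
    (S : HardySp k →L[ℂ] HardySp k) (hS : IsToeplitz F S) (f : HardySp k) :
    S (Zk k f) = Zk k (S f) := by
  obtain ⟨c, hc⟩ := tau_bdd hF.1
  have hm := tau_meas hF.1
  have key : ∀ f : HardySp k, toL2 (S f) = mulOp (fun t => tau k (F t)) hm c hc (toL2 f) := by
    intro f
    obtain ⟨G, hG, hGS⟩ := hS f
    have h1 : G = mulOp (fun t => tau k (F t)) hm c hc (toL2 f) := by
      apply Lp.ext
      filter_upwards [hG, coeFn_mulOp (fun t => tau k (F t)) hm c hc (toL2 f)] with t h2 h3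
      rw [h2, h3]
      rfl
    rw [hGS, h1]
    exact riesz_eq_self (mulOp_mem hF hm c hc _ f.2)
  have h1 : toL2 (S (Zk k f)) = toL2 (Zk k (S f)) := by
    rw [key, coe_Zk, coe_Zk, key, mulOp_mulC]
  exact Subtype.ext h1

end ana

/-- `T` is unitarily equivalent to `N ⊕ T_F`, with `N` a normal operator on a Hilbert space `L`
(possibly `0`) and `F ∈ H^∞_{M_k}`, `k ≥ 0`. -/
def IsNormalPlusAnalytic {n : ℕ} (T : HardySp n →L[ℂ] HardySp n) : Prop :=
  ∃ (L : Type) (_ : NormedAddCommGroup L) (_ : InnerProductSpace ℂ L) (_ : CompleteSpace L)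
    (N : L →L[ℂ] L) (k : ℕ) (F : Circ → Matrix (Fin k) (Fin k) ℂ)
    (S : HardySp k →L[ℂ] HardySp k) (U : HardySp n ≃ₗᵢ[ℂ] WithLp 2 (L × HardySp k)),
    IsNormalOp N ∧ IsHinfty F ∧ IsToeplitz F S ∧
      ∀ x, U (T x) = WithLp.toLp 2 (N (U x).fst, S (U x).snd)

theorem not_split (T : HardySp 2 →L[ℂ] HardySp 2) (hT : IsToeplitz Phi T) :
    ¬ IsNormalPlusAnalytic T := by
  rintro ⟨L, i1, i2, i3, N, k, F, S, U, hN, hF, hS, hU⟩
  let N' : L →L[ℂ] L := (-3 / 5 : ℂ) • (1 : L →L[ℂ] L) + (1 / 5 : ℂ) • N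
  let S' : HardySp k →L[ℂ] HardySp k := (-3 / 5 : ℂ) • (1 : HardySp k →L[ℂ] HardySp k) + (1 / 5 : ℂ) • S
  have hN' : IsNormalOp N' := normal_affine N hN (-3 / 5) (1 / 5)
  have hS' : ∀ x, S' (Zk k x) = Zk k (S' x) := by
    intro x
    show (-3 / 5 : ℂ) • Zk k x + (1 / 5 : ℂ) • S (Zk k x) = Zk k ((-3 / 5 : ℂ) • x + (1 / 5 : ℂ) • S x)
    rw [S_comm hF S hS, map_add, map_smul, map_smul]
  refine no_split (Wop T) gg norm_gg (norm_W T hT) (inner_W T hT) N' hN' S' (Zk k) hS'
    (fun x l h => Zk_eig x l h) U ?_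
  intro x
  show U ((-3 / 5 : ℂ) • x + (1 / 5 : ℂ) • T x) = _
  rw [map_add, map_smul, map_smul, hU]
  rfl

end Pool.Agent.N293.BT
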