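import Mathlib
import Pool.Agent.H612R3.BpDefs
import Pool.Agent.H612R3.Bp5
import Pool.Agent.N293.BT.Abs

set_option autoImplicit false
open scoped InnerProductSpace ComplexConjugate ENNReal Matrix
open Filter Topology MeasureTheory AddCircle
open Pool.Agent.Helper917.Hardy
open Pool.Agent.H612R3.BpDefs
open Pool.Agent.H612R3.Bp5 (tau tau_apply tau_sum tau_meas tau_bdd isLinfty_conj)
open Pool.Agent.H612R3.Bp (mulOp_mulC mulC1_mem toep coe_toep adj_toep shft coe_shft monoH)

namespace Pool.Agent.N293.BT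

section nrm

variable {V : Type} [NormedAddCommGroup V] [InnerProductSpace ℂ V] [FiniteDimensional ℂ V]

lemma riesz_shift (h : L2 V) : riesz (mulC (fourier 1) h) =
    mulC (fourier 1) (riesz h) + mono 0 (fourierCoeff h (-1)) := by
  apply ext_fourierCoeff
  intro m
  rw [fourierCoeff_riesz, fourierCoeff_add', fourierCoeff_mulC_fourier, fourierCoeff_mulC_fourier,
    fourierCoeff_riesz, fourierCoeff_mono]
  rcases lt_trichotomy m 0 with hm | hm | hm
  · rw [if_pos hm, if_pos (by omega), if_neg (by omega), add_zero]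
  · subst hm
    simp
  · rw [if_neg (by omega), if_neg (by omega), if_neg (by omega), add_zero]

lemma inner_riesz_shift (h h' : L2 V) :
    ⟪riesz (mulC (fourier 1) h), riesz (mulC (fourier 1) h')⟫_ℂ =
      ⟪riesz h, riesz h'⟫_ℂ + ⟪fourierCoeff h (-1), fourierCoeff h' (-1)⟫_ℂ := by
  have hz : ∀ (k : L2 V) (v : V), ⟪mono 0 v, mulC (fourier 1) (riesz k)⟫_ℂ = 0 := by
    intro k v
    rw [inner_mono, fourierCoeff_mulC_fourier, fourierCoeff_riesz, if_pos (by norm_num), inner_zero_right]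
  have hz' : ∀ (k : L2 V) (v : V), ⟪mulC (fourier 1) (riesz k), (mono 0 v : L2 V)⟫_ℂ = 0 := by
    intro k v
    rw [← inner_conj_symm, hz, map_zero]
  have hs : ⟪mulC (fourier 1) (riesz h), mulC (fourier 1) (riesz h')⟫_ℂ = ⟪riesz h, riesz h'⟫_ℂ := by
    rw [inner_mulC_left, mulC_mulC, star_fourier, fourier_mul]
    congr 1
    apply ext_fourierCoeff
    intro m
    rw [fourierCoeff_mulC_fourier]
    congr 1
    ring
  rw [riesz_shift, riesz_shift, inner_add_left, inner_add_right, inner_add_right, hz, hz', hs,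
    inner_mono, fourierCoeff_mono, if_pos rfl]
  ring

/-- the coefficient relations of a normal Toeplitz operator -/
lemma normal_rel (F F' : Circ → V →L[ℂ] V) (hF : AEStronglyMeasurable F mu) (c : ℝ)
    (hc : ∀ᵐ t ∂mu, ‖F t‖ ≤ c) (hF' : AEStronglyMeasurable F' mu) (c' : ℝ)
    (hc' : ∀ᵐ t ∂mu, ‖F' t‖ ≤ c') (had : ∀ᵐ t ∂mu, F' t = ContinuousLinearMap.adjoint (F t))
    (hN : IsNormalOp (toep F hF c hc)) (f f' : H2 V) :
    ⟪fourierCoeff (mulOp F hF c hc (f : L2 V)) (-1), fourierCoeff (mulOp F hF c hc (f' : L2 V)) (-1)⟫_ℂ =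
    ⟪fourierCoeff (mulOp F' hF' c' hc' (f : L2 V)) (-1),
      fourierCoeff (mulOp F' hF' c' hc' (f' : L2 V)) (-1)⟫_ℂ := by
  have hadj : ContinuousLinearMap.adjoint (toep F hF c hc) = toep F' hF' c' hc' := adj_toep had
  have h1 : ∀ f f' : H2 V, ⟪toep F hF c hc f, toep F hF c hc f'⟫_ℂ =
      ⟪toep F' hF' c' hc' f, toep F' hF' c' hc' f'⟫_ℂ := by
    intro f f'
    have e1 : ⟪toep F hF c hc f, toep F hF c hc f'⟫_ℂ =
        ⟪f, ContinuousLinearMap.adjoint (toep F hF c hc) (toep F hF c hc f')⟫_ℂ :=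
      (ContinuousLinearMap.adjoint_inner_right _ _ _).symm
    have e2 : ContinuousLinearMap.adjoint (toep F hF c hc) (toep F hF c hc f') =
        toep F hF c hc (ContinuousLinearMap.adjoint (toep F hF c hc) f') :=
      congrArg (fun A : H2 V →L[ℂ] H2 V => A f') hN
    rw [e1, e2, ← ContinuousLinearMap.adjoint_inner_left, hadj]
  have h2 : ∀ f f' : H2 V, ⟪riesz (mulOp F hF c hc (f : L2 V)), riesz (mulOp F hF c hc (f' : L2 V))⟫_ℂ =
      ⟪riesz (mulOp F' hF' c' hc' (f : L2 V)), riesz (mulOp F' hF' c' hc' (f' : L2 V))⟫_ℂ := h1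
  have h3 := h2 (shft f) (shft f')
  rw [coe_shft, coe_shft, mulOp_mulC, mulOp_mulC, mulOp_mulC, mulOp_mulC, inner_riesz_shift,
    inner_riesz_shift, h2 f f'] at h3
  exact add_left_cancel h3

end nrm

end Pool.Agent.N293.BT
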