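import Mathlib
import Pool.Agent.H612R3.BpDefs
import Pool.Agent.H612R3.Bp5
import Pool.Agent.N293.BT.Toep
import Pool.Agent.N293.BT.Nrm

set_option autoImplicit false
open scoped InnerProductSpace ComplexConjugate ENNReal Matrix
open Filter Topology MeasureTheory AddCircle
open Pool.Agent.Helper917.Hardy
open Pool.Agent.H612R3.BpDefs
open Pool.Agent.H612R3.Bp5 (tau tau_apply tau_sum tau_meas tau_bdd isLinfty_conj tau_single)
open Pool.Agent.H612R3.Bp (mulOp_mulC mulC1_mem toep coe_toep adj_toep shft coe_shft monoH)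

namespace Pool.Agent.N293.BT

lemma coeff_col (Θ : Circ → Matrix (Fin 2) (Fin 2) ℂ)
    (hm : AEStronglyMeasurable (fun t => tau 2 (Θ t)) mu) (c : ℝ)
    (hc : ∀ᵐ t ∂mu, ‖tau 2 (Θ t)‖ ≤ c) (j : ℕ) (i l : Fin 2) :
    (fourierCoeff (mulOp (fun t => tau 2 (Θ t)) hm c hc
      ((monoH j (EuclideanSpace.single i (1 : ℂ)) : H2 E2) : L2 E2)) (-1)) l =
      fourierCoeff (fun t => Θ t l i) (-1 - j) := by
  have e1 : ((monoH j (EuclideanSpace.single i (1 : ℂ)) : H2 E2) : L2 E2) =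
      mulC (fourier (j : ℤ)) (mono 0 (EuclideanSpace.single i (1 : ℂ))) := by
    apply ext_fourierCoeff
    intro m
    show fourierCoeff (mono (j : ℤ) (EuclideanSpace.single i (1 : ℂ)) : L2 E2) m = _
    rw [fourierCoeff_mulC_fourier, fourierCoeff_mono, fourierCoeff_mono]
    by_cases hj : m = j
    · rw [if_pos hj, if_pos (by omega)]
    · rw [if_neg hj, if_neg (by omega)]
  rw [e1, mulOp_mulC, fourierCoeff_mulC_fourier, coeff_comp]
  refine congrFun (fourierCoeff_congr_ae ?_) _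
  filter_upwards [coeFn_mulOp (fun t => tau 2 (Θ t)) hm c hc
    (mono 0 (EuclideanSpace.single i (1 : ℂ))),
    coeFn_mono 0 (EuclideanSpace.single i (1 : ℂ) : E2)] with t h1 h2
  rw [h1, h2, fourier_zero, one_smul, tau_single]

lemma fourierCoeff_conj (f : Circ → ℂ) (m : ℤ) :
    fourierCoeff (fun t => conj (f t)) m = conj (fourierCoeff f (-m)) := by
  unfold fourierCoeff
  rw [← integral_conj]
  apply integral_congr_ae
  filter_upwards with t
  rw [smul_eq_mul, smul_eq_mul, map_mul, neg_neg, fourier_neg]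

/-- the coefficient relations of a normal block Toeplitz operator with 2 by 2 symbol -/
theorem normal_coeff (Θ : Circ → Matrix (Fin 2) (Fin 2) ℂ) (hΘ : IsLinfty Θ)
    (T : HardySp 2 →L[ℂ] HardySp 2) (hT : IsToeplitz Θ T) (hN : IsNormalOp T) (j k : ℕ)
    (i i' : Fin 2) :
    ∑ l, conj (fourierCoeff (fun t => Θ t l i) (-1 - j)) *
        fourierCoeff (fun t => Θ t l i') (-1 - k) =
      ∑ l, fourierCoeff (fun t => Θ t i l) (1 + j) *
        conj (fourierCoeff (fun t => Θ t i' l) (1 + k)) := by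
  obtain ⟨c, hc⟩ := tau_bdd hΘ
  obtain ⟨c', hc'⟩ := tau_bdd (isLinfty_conj hΘ)
  have hF := tau_meas hΘ
  have hF' := tau_meas (isLinfty_conj hΘ)
  have hTe : ∀ f : HardySp 2, toL2 (T f) = toL2 ((toep (fun t => tau 2 (Θ t)) hF c hc : H2 E2 →L[ℂ] H2 E2) f : HardySp 2) := by
    intro f
    obtain ⟨g, hg, hTg⟩ := hT f
    have h1 : g = mulOp (fun t => tau 2 (Θ t)) hF c hc (toL2 f) := by
      apply Lp.ext
      filter_upwards [hg, coeFn_mulOp (fun t => tau 2 (Θ t)) hF c hc (toL2 f)] with t h2 h3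
      rw [h2, h3]
      rfl
    rw [hTg, h1]
    rfl
  have hTe' : T = (toep (fun t => tau 2 (Θ t)) hF c hc : H2 E2 →L[ℂ] H2 E2) := by
    apply ContinuousLinearMap.ext
    intro f
    exact Subtype.ext (hTe f)
  have hadj : ∀ᵐ t ∂mu, tau 2 ((Θ t)ᴴ) = ContinuousLinearMap.adjoint (tau 2 (Θ t)) := by
    filter_upwards with t
    exact map_star (tau 2) (Θ t)
  have hN' : IsNormalOp (toep (fun t => tau 2 (Θ t)) hF c hc : H2 E2 →L[ℂ] H2 E2) := by
    rw [hTe'] at hN
    exact hN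
  have h := normal_rel (fun t => tau 2 (Θ t)) (fun t => tau 2 ((Θ t)ᴴ)) hF c hc hF' c' hc' hadj hN'
    (monoH j (EuclideanSpace.single i (1 : ℂ))) (monoH k (EuclideanSpace.single i' (1 : ℂ)))
  rw [PiLp.inner_apply, PiLp.inner_apply] at h
  simp only [coeff_col, RCLike.inner_apply] at h
  have e1 : ∀ (l i : Fin 2) (j : ℕ), fourierCoeff (fun t => (Θ t)ᴴ l i) (-1 - (j : ℤ)) =
      conj (fourierCoeff (fun t => Θ t i l) (1 + j)) := by
    intro l i j
    have e2 : (fun t => (Θ t)ᴴ l i) = fun t => conj (Θ t i l) := rfl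
    have e3 : -(-1 - (j : ℤ)) = 1 + j := by ring
    rw [e2, fourierCoeff_conj, e3]
  have e4 : ∀ (l i : Fin 2) (j : ℕ), fourierCoeff (fun t => (Θ t)ᴴ l i) (-1 - (j : ℤ)) =
      conj (fourierCoeff (fun t => Θ t i l) (1 + j)) := e1
  simp only [e1] at h
  simp only [Complex.conj_conj] at h
  calc _ = ∑ l, fourierCoeff (fun t => Θ t l i') (-1 - k) * conj (fourierCoeff (fun t => Θ t l i) (-1 - j)) :=
        Finset.sum_congr rfl (fun l _ => mul_comm _ _)
    _ = _ := h
    _ = _ := Finset.sum_congr rfl (fun l _ => mul_comm _ _)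

/-- `f` is (a.e.) a co-analytic polynomial `∑_{k ≤ n} a_k z̄^k` of degree `n`, expressed through the
Fourier coefficients: they vanish outside `[-n, 0]`, and the one of index `-n` does not. -/
def IsCoanalyticPoly (n : ℕ) (f : Circ → ℂ) : Prop :=
  (∀ m : ℤ, m < -(n : ℤ) ∨ 0 < m → fourierCoeff f m = 0) ∧ fourierCoeff f (-(n : ℤ)) ≠ 0

/-- the algebra of the relations -/
lemma algebra_rel (n : ℕ) (hn : 1 ≤ n) (A D a b a' b' : ℕ → ℂ)
    (hA : ∀ k, n < k → A k = 0) (hD : ∀ k, n < k → D k = 0) (hAn : A n ≠ 0) (hDn : D n ≠ 0)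
    (h00 : ∀ j k, 1 ≤ j → 1 ≤ k → conj (A j) * A k + conj (b' j) * b' k = a j * conj (a k))
    (h01 : ∀ j k, 1 ≤ j → 1 ≤ k → conj (A j) * a' k + conj (b' j) * D k = 0)
    (h11 : ∀ j k, 1 ≤ j → 1 ≤ k → conj (a' j) * a' k + conj (D j) * D k = b j * conj (b k)) :
    ∃ μ u v : ℂ, ‖u‖ ^ 2 = 1 + ‖μ‖ ^ 2 ∧ ‖v‖ ^ 2 = 1 + ‖μ‖ ^ 2 ∧ ∀ k, 1 ≤ k →
      a' k = μ * D k ∧ a k = u * conj (A k) ∧ b' k = -conj μ * A k ∧ b k = v * conj (D k) := by
  have hAc : conj (A n) ≠ 0 := by simpa using hAn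
  have hDc : conj (D n) ≠ 0 := by simpa using hDn
  obtain ⟨μ, hμ⟩ : ∃ μ, μ = a' n / D n := ⟨_, rfl⟩
  have ha'n : a' n = μ * D n := by rw [hμ]; field_simp
  -- b'
  have hb' : ∀ j, 1 ≤ j → conj (b' j) = -μ * conj (A j) := by
    intro j hj
    have h := h01 j n hj hn
    rw [ha'n] at h
    have : D n * (conj (A j) * μ + conj (b' j)) = 0 := by linear_combination h
    rcases mul_eq_zero.1 this with h' | h'
    · exact absurd h' hDn
    · linear_combination h'
  have ha' : ∀ k, 1 ≤ k → a' k = μ * D k := by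
    intro k hk
    have h := h01 n k hn hk
    rw [hb' n hn] at h
    have : conj (A n) * (a' k - μ * D k) = 0 := by linear_combination h
    rcases mul_eq_zero.1 this with h' | h'
    · exact absurd h' hAc
    · linear_combination h'
  have hb'' : ∀ j, 1 ≤ j → b' j = -conj μ * A j := by
    intro j hj
    have h := congrArg conj (hb' j hj)
    rw [Complex.conj_conj, map_mul, map_neg, Complex.conj_conj] at h
    exact h
  have g00 : ∀ j k, 1 ≤ j → 1 ≤ k → (1 + μ * conj μ) * (conj (A j) * A k) = a j * conj (a k) := by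
    intro j k hj hk
    have h := h00 j k hj hk
    rw [hb' j hj, hb'' k hk] at h
    linear_combination h
  have g11 : ∀ j k, 1 ≤ j → 1 ≤ k → (1 + μ * conj μ) * (conj (D j) * D k) = b j * conj (b k) := by
    intro j k hj hk
    have h := h11 j k hj hk
    rw [ha' j hj, ha' k hk, map_mul] at h
    linear_combination h
  have hμμ : μ * conj μ = ((‖μ‖ ^ 2 : ℝ) : ℂ) := by
    rw [Complex.mul_conj']; push_cast; rfl
  have hpos : (1 + μ * conj μ) ≠ 0 := by
    rw [hμμ]
    have : (0 : ℝ) < 1 + ‖μ‖ ^ 2 := by positivity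
    exact_mod_cast this.ne'
  have key : ∀ (X x : ℕ → ℂ), X n ≠ 0 →
      (∀ j k, 1 ≤ j → 1 ≤ k → (1 + μ * conj μ) * (conj (X j) * X k) = x j * conj (x k)) →
      ∃ u : ℂ, ‖u‖ ^ 2 = 1 + ‖μ‖ ^ 2 ∧ ∀ k, 1 ≤ k → x k = u * conj (X k) := by
    intro X x hX hx
    have hXc : conj (X n) ≠ 0 := by simpa using hX
    have hnn := hx n n hn hn
    have hxn : x n ≠ 0 := by
      intro h0
      rw [h0, zero_mul] at hnn
      rcases mul_eq_zero.1 hnn with h | h
      · exact hpos h
      · rcases mul_eq_zero.1 h with h | h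
        · exact hXc h
        · exact hX h
    have hxc : conj (x n) ≠ 0 := by simpa using hxn
    have hval : ∀ k, 1 ≤ k → x k = (1 + μ * conj μ) * X n / conj (x n) * conj (X k) := by
      intro k hk
      have h := hx k n hk hn
      field_simp
      linear_combination -h
    refine ⟨(1 + μ * conj μ) * X n / conj (x n), ?_, hval⟩
    have h1 : x n = (1 + μ * conj μ) * X n / conj (x n) * conj (X n) := hval n hn
    generalize (1 + μ * conj μ) * X n / conj (x n) = u at h1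
    have h2 : (1 + μ * conj μ) * (conj (X n) * X n) = u * conj u * (conj (X n) * X n) := by
      have h3 : conj (x n) = conj u * X n := by rw [h1, map_mul, Complex.conj_conj]
      rw [hnn, h3]
      rw [h1]
      ring
    have h4 : (1 + μ * conj μ) = u * conj u := mul_right_cancel₀ (mul_ne_zero hXc hX) h2
    rw [hμμ, Complex.mul_conj'] at h4
    have h5 : ((1 + ‖μ‖ ^ 2 : ℝ) : ℂ) = ((‖u‖ ^ 2 : ℝ) : ℂ) := by
      push_cast
      push_cast at h4
      exact h4
    exact (Complex.ofReal_injective h5).symm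
  obtain ⟨u, hu1, hu2⟩ := key A a hAn g00
  obtain ⟨v, hv1, hv2⟩ := key D b hDn g11
  exact ⟨μ, u, v, hu1, hv1, fun k hk => ⟨ha' k hk, hu2 k hk, hb'' k hk, hv2 k hk⟩⟩

end Pool.Agent.N293.BT
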