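import Mathlib
import Pool.Agent.N293.BT.Nrm2

set_option autoImplicit false
open scoped InnerProductSpace ComplexConjugate ENNReal Matrix
open Filter Topology MeasureTheory AddCircle
open Pool.Agent.Helper917.Hardy
open Pool.Agent.H612R3.BpDefs

namespace Pool.Agent.N293.BT

lemma trig_of_coeff (f : Circ → ℂ) (hf : AEStronglyMeasurable f mu) (C : ℝ)
    (hC : ∀ᵐ t ∂mu, ‖f t‖ ≤ C) (n : ℕ) (h : ∀ m : ℤ, (n : ℤ) < |m| → fourierCoeff f m = 0) :
    f =ᵐ[mu] fun t => ∑ k ∈ Finset.Icc (-(n : ℤ)) n, fourierCoeff f k * fourier k t := by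
  have hfm : MemLp f 2 mu := MemLp.of_bound hf C hC
  let g : C(Circ, ℂ) := ∑ k ∈ Finset.Icc (-(n : ℤ)) n, fourierCoeff f k • fourier k
  have hg : hfm.toLp f = ContinuousMap.toLp 2 mu ℂ g := by
    apply ext_fourierCoeff
    intro m
    rw [fourierCoeff_congr_ae hfm.coeFn_toLp, ← coeffL_apply]
    show _ = coeffL m (ContinuousMap.toLp 2 mu ℂ (∑ k ∈ Finset.Icc (-(n : ℤ)) n, fourierCoeff f k • fourier k))
    rw [map_sum, map_sum]
    have e1 : ∀ k : ℤ, coeffL m (ContinuousMap.toLp 2 mu ℂ (fourierCoeff f k • fourier k : C(Circ, ℂ))) =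
        fourierCoeff f k * (if m = k then 1 else 0) := by
      intro k
      rw [map_smul, map_smul, smul_eq_mul, coeffL_apply,
        fourierCoeff_congr_ae (ContinuousMap.coeFn_toLp mu (fourier k : C(Circ, ℂ)))]
      have h3 := congrFun (fourierCoeff_fourier (T := (1 : ℝ)) k) m
      rw [h3, Pi.single_apply]
    simp only [e1]
    by_cases hm : m ∈ Finset.Icc (-(n : ℤ)) n
    · rw [Finset.sum_eq_single_of_mem m hm]
      · rw [if_pos rfl, mul_one]
      · intro k _ hk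
        rw [if_neg (Ne.symm hk), mul_zero]
    · rw [Finset.sum_eq_zero]
      · apply h
        rw [Finset.mem_Icc, not_and_or] at hm
        rcases hm with hm | hm
        · have : m < 0 := by omega
          rw [abs_of_neg this]
          omega
        · have : 0 < m := by omega
          rw [abs_of_pos this]
          omega
      · intro k hk
        rw [if_neg, mul_zero]
        rintro rfl
        exact hm hk
  have h1 := hfm.coeFn_toLp
  rw [hg] at h1
  filter_upwards [h1, ContinuousMap.coeFn_toLp (p := 2) (𝕜 := ℂ) mu g] with t h2 h3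
  rw [← h2, h3]
  show (∑ k ∈ Finset.Icc (-(n : ℤ)) n, fourierCoeff f k • fourier k : C(Circ, ℂ)) t = _
  rw [ContinuousMap.sum_apply]
  rfl

theorem normal_completion (n : ℕ) (hn : 1 ≤ n) (Φ Ψ α β : Circ → ℂ)
    (hΘ : IsLinfty (fun t => !![Φ t, α t; β t, Ψ t])) (hΦ : IsCoanalyticPoly n Φ)
    (hΨ : IsCoanalyticPoly n Ψ) (T : HardySp 2 →L[ℂ] HardySp 2)
    (hT : IsToeplitz (fun t => !![Φ t, α t; β t, Ψ t]) T) (hN : IsNormalOp T) :
    (∃ μ u v : ℂ, ‖u‖ ^ 2 = 1 + ‖μ‖ ^ 2 ∧ ‖v‖ ^ 2 = 1 + ‖μ‖ ^ 2 ∧ ∀ k : ℕ, 1 ≤ k →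
      fourierCoeff α (-(k : ℤ)) = μ * fourierCoeff Ψ (-(k : ℤ)) ∧
      fourierCoeff α k = u * conj (fourierCoeff Φ (-(k : ℤ))) ∧
      fourierCoeff β (-(k : ℤ)) = -conj μ * fourierCoeff Φ (-(k : ℤ)) ∧
      fourierCoeff β k = v * conj (fourierCoeff Ψ (-(k : ℤ)))) ∧
    (α =ᵐ[mu] fun t => ∑ k ∈ Finset.Icc (-(n : ℤ)) n, fourierCoeff α k * fourier k t) ∧
    (β =ᵐ[mu] fun t => ∑ k ∈ Finset.Icc (-(n : ℤ)) n, fourierCoeff β k * fourier k t) := by
  have rel := normal_coeff (fun t => !![Φ t, α t; β t, Ψ t]) hΘ T hT hN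
  have hsucc : ∀ j : ℕ, 1 ≤ j → ∃ j' : ℕ, -1 - (j' : ℤ) = -(j : ℤ) ∧ 1 + (j' : ℤ) = (j : ℤ) := by
    intro j hj
    exact ⟨j - 1, by omega, by omega⟩
  have hΦp : ∀ j : ℕ, 1 ≤ j → fourierCoeff Φ (j : ℤ) = 0 := fun j hj => hΦ.1 _ (Or.inr (by omega))
  have hΨp : ∀ j : ℕ, 1 ≤ j → fourierCoeff Ψ (j : ℤ) = 0 := fun j hj => hΨ.1 _ (Or.inr (by omega))
  have main := algebra_rel n hn (fun k => fourierCoeff Φ (-(k : ℤ))) (fun k => fourierCoeff Ψ (-(k : ℤ)))
    (fun k => fourierCoeff α k) (fun k => fourierCoeff β k)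
    (fun k => fourierCoeff α (-(k : ℤ))) (fun k => fourierCoeff β (-(k : ℤ)))
    (fun k hk => hΦ.1 _ (Or.inl (by omega))) (fun k hk => hΨ.1 _ (Or.inl (by omega))) hΦ.2 hΨ.2
    (by
      intro j k hj hk
      obtain ⟨j', hj1, hj2⟩ := hsucc j hj
      obtain ⟨k', hk1, hk2⟩ := hsucc k hk
      have h := rel j' k' 0 0
      rw [Fin.sum_univ_two, Fin.sum_univ_two, hj1, hk1, hj2, hk2] at h
      change conj (fourierCoeff Φ (-(j : ℤ))) * fourierCoeff Φ (-(k : ℤ)) +
        conj (fourierCoeff β (-(j : ℤ))) * fourierCoeff β (-(k : ℤ)) =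
        fourierCoeff Φ (j : ℤ) * conj (fourierCoeff Φ (k : ℤ)) +
        fourierCoeff α (j : ℤ) * conj (fourierCoeff α (k : ℤ)) at h
      rw [hΦp j hj, zero_mul, zero_add] at h
      exact h)
    (by
      intro j k hj hk
      obtain ⟨j', hj1, hj2⟩ := hsucc j hj
      obtain ⟨k', hk1, hk2⟩ := hsucc k hk
      have h := rel j' k' 0 1
      rw [Fin.sum_univ_two, Fin.sum_univ_two, hj1, hk1, hj2, hk2] at h
      change conj (fourierCoeff Φ (-(j : ℤ))) * fourierCoeff α (-(k : ℤ)) +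
        conj (fourierCoeff β (-(j : ℤ))) * fourierCoeff Ψ (-(k : ℤ)) =
        fourierCoeff Φ (j : ℤ) * conj (fourierCoeff β (k : ℤ)) +
        fourierCoeff α (j : ℤ) * conj (fourierCoeff Ψ (k : ℤ)) at h
      rw [hΦp j hj, hΨp k hk, zero_mul, map_zero, mul_zero, zero_add] at h
      exact h)
    (by
      intro j k hj hk
      obtain ⟨j', hj1, hj2⟩ := hsucc j hj
      obtain ⟨k', hk1, hk2⟩ := hsucc k hk
      have h := rel j' k' 1 1
      rw [Fin.sum_univ_two, Fin.sum_univ_two, hj1, hk1, hj2, hk2] at h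
      change conj (fourierCoeff α (-(j : ℤ))) * fourierCoeff α (-(k : ℤ)) +
        conj (fourierCoeff Ψ (-(j : ℤ))) * fourierCoeff Ψ (-(k : ℤ)) =
        fourierCoeff β (j : ℤ) * conj (fourierCoeff β (k : ℤ)) +
        fourierCoeff Ψ (j : ℤ) * conj (fourierCoeff Ψ (k : ℤ)) at h
      rw [hΨp j hj, zero_mul, add_zero] at h
      exact h)
  refine ⟨main, ?_, ?_⟩
  · obtain ⟨μ, u, v, -, -, hk⟩ := main
    obtain ⟨C, hC⟩ := hΘ.2
    refine trig_of_coeff α (hΘ.1 0 1) C (by filter_upwards [hC] with t ht using ht 0 1) n (fun m hm => ?_)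
    rcases lt_or_ge m 0 with h0 | h0
    · rw [abs_of_neg h0] at hm
      have h1 := (hk m.natAbs (by omega)).1
      have h2 : -((m.natAbs : ℕ) : ℤ) = m := by omega
      simp only [h2] at h1
      rw [h1, hΨ.1 m (Or.inl (by omega)), mul_zero]
    · rw [abs_of_nonneg h0] at hm
      have h1 := (hk m.toNat (by omega)).2.1
      have h2 : ((m.toNat : ℕ) : ℤ) = m := by omega
      simp only [h2] at h1
      rw [h1, hΦ.1 (-m) (Or.inl (by omega)), map_zero, mul_zero]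
  · obtain ⟨μ, u, v, -, -, hk⟩ := main
    obtain ⟨C, hC⟩ := hΘ.2
    refine trig_of_coeff β (hΘ.1 1 0) C (by filter_upwards [hC] with t ht using ht 1 0) n (fun m hm => ?_)
    rcases lt_or_ge m 0 with h0 | h0
    · rw [abs_of_neg h0] at hm
      have h1 := (hk m.natAbs (by omega)).2.2.1
      have h2 : -((m.natAbs : ℕ) : ℤ) = m := by omega
      simp only [h2] at h1
      rw [h1, hΦ.1 m (Or.inl (by omega)), mul_zero]
    · rw [abs_of_nonneg h0] at hm
      have h1 := (hk m.toNat (by omega)).2.2.2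
      have h2 : ((m.toNat : ℕ) : ℤ) = m := by omega
      simp only [h2] at h1
      rw [h1, hΨ.1 (-m) (Or.inl (by omega)), map_zero, mul_zero]

end Pool.Agent.N293.BT
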